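import Pool.Agent.J4.H50.CV.M4
import Pool.Agent.K4H13.CV.Fin
import Pool.Agent.K4H13.CV.Ex2
import Pool.Agent.K4H13.CV.Hp
import Pool.Agent.K4H13.CV.Hpc
import Pool.Agent.K4H13.CV.Hpr
import Pool.Agent.K4H13.CV.Hpv

/-!
# The central values of the twists of the newforms of weight two and prime level by the characters
of any group of Dirichlet characters
-/

set_option autoImplicit false

open Complex Filter Topology Set UpperHalfPlane MatrixGroups CongruenceSubgroup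

namespace Pool.Agent.Results.MP_cc4f83_nt.CharacterFamilies

/-- the cusp forms of weight 2 for `Γ₀(N)` -/
abbrev S2 (N : ℕ) : Type := CuspForm (Gamma0 N : Subgroup (GL (Fin 2) ℝ)) 2

/-- the newforms of root number `ε`: `a(1) = 1`, real coefficients, Hecke relations, and
`f(-1/(Nz)) = - ε N z² f(z)` with `ε = 1` or `ε = -1` (see `W388.IsNewf`) -/
def H (N : ℕ) (ε : ℝ) : Set (S2 N) := {f | W388.IsNewf N 2 f ε}

/-- all newforms -/
def HH (N : ℕ) : Set (S2 N) := H N 1 ∪ H N (-1)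

/-- `L` is the L-function of `f ⊗ χ`: the entire continuation of `∑ χ(n) λ_f(n) n^(-s)`, where
`λ_f(n) = a(n) n^(-1/2)` -/
def IsLfun {N q : ℕ} (f : S2 N) (χ : DirichletCharacter ℂ q) (L : ℂ → ℂ) : Prop :=
  Differentiable ℂ L ∧
    ∀ s : ℂ, 3 < s.re → L s = ∑' n : ℕ, χ (n : ZMod q) * (W388.lamf f n : ℂ) * (n : ℂ) ^ (-s)

open Classical in
/-- the central value `L(1/2, f ⊗ χ)` -/
noncomputable def cv {N q : ℕ} (f : S2 N) (χ : DirichletCharacter ℂ q) : ℂ :=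
  if h : ∃ L : ℂ → ℂ, IsLfun f χ L then h.choose (1 / 2) else 0

/-- the pairs of a newform of level `N` and a primitive character of `X` with `L(1/2, f ⊗ χ) ≠ 0` -/
def nz (N : ℕ) {q : ℕ} (X : Subgroup (DirichletCharacter ℂ q)) :
    Set (S2 N × DirichletCharacter ℂ q) :=
  {p | p.1 ∈ HH N ∧ p.2 ∈ X ∧ p.2.IsPrimitive ∧ cv p.1 p.2 ≠ 0}

/-- the filter of the primes `N → ∞` -/
def primes : Filter ℕ := atTop ⊓ 𝓟 {N : ℕ | N.Prime}

open Pool.Agent.K4H13.CV Pool.Agent.Y18.BSD Pool.Agent.J4.H50.CV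

theorem HH_eq (N : ℕ) : HH N = {f | ∃ ε : ℝ, W388.IsNewf N 2 f ε} := by
  ext f
  constructor
  · rintro (h | h)
    · exact ⟨1, h⟩
    · exact ⟨-1, h⟩
  · rintro ⟨ε, h⟩
    rcases h.sign with rfl | rfl
    · exact Or.inl h
    · exact Or.inr h

/-- the number of the odd newforms -/
theorem hp : S_HP := HpP.hp_of (hpv span (free span) (wt span)) hpc hpr

/-- all the data of one prime -/
theorem one {N : ℕ} [NeZero N] (hN : N.Prime) (h3 : 3 ≤ N) : ∃ B : Finset (S2 N),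
    W388.LV.IsNewBasis N 2 B ∧ HH N = B ∧ N ≤ 12 * B.card + 13 ∧
    ∀ P : Finset (S2 N), P ⊆ B → (∀ f ∈ P, f ∈ H N (-1)) → 18 * P.card ≤ N + 13 := by
  obtain ⟨B, hB, hBm⟩ := newform_basis N hN
  have h2 : N ≠ 2 := by omega
  obtain ⟨d1, d2, -⟩ := dimS hyp hN h2 hB
  refine ⟨B, hB, ?_, d2, ?_⟩
  · rw [HH_eq]
    ext f
    exact (hBm f).symm
  · intro P hP hPm
    have := hp N hN h2 B hB P hP hPm
    omega

theorem fin {N : ℕ} (hN : N.Prime) (h3 : 3 ≤ N) : (HH N).Finite := by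
  have : NeZero N := ⟨hN.ne_zero⟩
  obtain ⟨B, -, hB, -⟩ := one hN h3
  rw [hB]
  exact B.finite_toSet

/-- there are many even newforms -/
theorem even_many {N : ℕ} (hN : N.Prime) (h3 : 3 ≤ N) : N ≤ 36 * (H N 1).ncard + 65 ∧
    (650 ≤ N → (HH N).ncard ≤ 20 * (H N 1).ncard) := by
  classical
  have : NeZero N := ⟨hN.ne_zero⟩
  obtain ⟨B, -, hB, hd, hP⟩ := one hN h3
  have hm : (H N (-1)).ncard ≤ (B.filter fun f => f ∈ H N (-1)).card := by
    rw [← Set.ncard_coe_finset]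
    refine Set.ncard_le_ncard (fun f hf => ?_) (Finset.finite_toSet _)
    rw [Finset.coe_filter]
    have : f ∈ HH N := Or.inr hf
    rw [hB] at this
    exact ⟨this, hf⟩
  have h1 := hP _ (Finset.filter_subset (fun f => f ∈ H N (-1)) B) fun f hf => (Finset.mem_filter.1 hf).2
  have h2 : B.card ≤ (H N 1).ncard + (H N (-1)).ncard := by
    rw [← Set.ncard_coe_finset, ← hB]
    exact Set.ncard_union_le _ _
  have h4 : (HH N).ncard = B.card := by rw [hB, Set.ncard_coe_finset]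
  rw [h4]
  constructor
  · omega
  · intro _
    omega

/-- the central value and the character sum -/
theorem cv_val {N q : ℕ} [NeZero N] [NeZero q] {χ : DirichletCharacter ℂ q} (hp : χ.IsPrimitive)
    (hco : q.Coprime N) {f : S2 N} {ε : ℝ} (hf : W388.IsNewf N 2 f ε) :
    (∃ L : ℂ → ℂ, IsLfun f χ L ∧ L (1 / 2) = cv f χ) ∧
      Real.sqrt q * ‖cv f χ‖ = ‖Vc f χ⁻¹‖ := by
  obtain ⟨L, hL, h⟩ := exists_IsLc hf q χ hp hco
  have hex : ∃ L : ℂ → ℂ, IsLfun f χ L := ⟨L, hL.diff, hL.eq⟩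
  have h3 : cv f χ = hex.choose (1 / 2) := by
    unfold cv
    rw [dif_pos hex]
  have h4 : hex.choose = L := IsLc.unique ⟨hex.choose_spec.1, hex.choose_spec.2⟩ hL
  rw [h4] at h3
  refine ⟨⟨L, ⟨hL.diff, hL.eq⟩, h3.symm⟩, ?_⟩
  have h5 := congrArg norm h
  rw [norm_mul] at h5
  have h6 := H385.GaussAux.norm_sq_gaussSum (Pool.Agent.W440.TW.inv_primitive χ hp)
  have h7 : ‖gaussSum χ⁻¹ (ZMod.stdAddChar (N := q))‖ = Real.sqrt q := by
    rw [← h6, Real.sqrt_sq (norm_nonneg _)]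
  rw [h7] at h5
  rw [h3, h5]
  rfl

/-- from the product of the nonzero values to the number of the small ones -/
theorem count_M {ι : Type} [DecidableEq ι] (B : Finset ι) (v : ι → ℝ) (n C C1 A M : ℝ) (hn : 1 < n)
    (hA : 0 < A) (hC : 0 ≤ C) (hC1 : 0 ≤ C1) (hM : (B.card : ℝ) ≤ M) (hv : ∀ f ∈ B, 0 ≤ v f)
    (hu : ∀ f ∈ B, v f ≤ n ^ C1)
    (hp : n ^ (-(C * M)) ≤ ∏ f ∈ B with v f ≠ 0, v f) :
    (((B.filter fun f => v f ≠ 0 ∧ v f < n ^ (-A)).card : ℕ) : ℝ) ≤ (C + C1) / A * M := by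
  have hn0 : 0 < n := by linarith
  have hM0 : 0 ≤ M := le_trans (Nat.cast_nonneg _) hM
  set S := B.filter fun f => v f ≠ 0 ∧ v f < n ^ (-A) with hS
  set P := B.filter fun f => v f ≠ 0 with hP
  have hSP : S ⊆ P := fun f hf => by
    rw [hS, Finset.mem_filter] at hf
    rw [hP, Finset.mem_filter]
    exact ⟨hf.1, hf.2.1⟩
  have h1 : ∏ f ∈ P, v f ≤ n ^ (C1 * M) * n ^ (-(A * (S.card : ℝ))) := by
    rw [← Finset.prod_sdiff hSP]
    have h2 : ∏ f ∈ P \ S, v f ≤ n ^ (C1 * M) := by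
      have h3 : ∏ f ∈ P \ S, v f ≤ ∏ f ∈ P \ S, n ^ C1 := by
        refine Finset.prod_le_prod (fun f hf => ?_) (fun f hf => ?_)
        · exact hv f (Finset.mem_filter.1 (Finset.mem_sdiff.1 hf).1).1
        · exact hu f (Finset.mem_filter.1 (Finset.mem_sdiff.1 hf).1).1
      refine h3.trans ?_
      rw [Finset.prod_const, ← Real.rpow_natCast, ← Real.rpow_mul hn0.le]
      apply Real.rpow_le_rpow_of_exponent_le hn.le
      apply mul_le_mul_of_nonneg_left _ hC1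
      have h4 : (P \ S).card ≤ B.card :=
        Finset.card_le_card (Finset.sdiff_subset.trans (Finset.filter_subset _ _))
      exact le_trans (by exact_mod_cast h4) hM
    have h3 : ∏ f ∈ S, v f ≤ n ^ (-(A * (S.card : ℝ))) := by
      have h4 : ∏ f ∈ S, v f ≤ ∏ f ∈ S, n ^ (-A) := by
        refine Finset.prod_le_prod (fun f hf => ?_) (fun f hf => ?_)
        · exact hv f (Finset.mem_filter.1 hf).1
        · exact (Finset.mem_filter.1 hf).2.2.le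
      refine h4.trans ?_
      rw [Finset.prod_const, ← Real.rpow_natCast, ← Real.rpow_mul hn0.le]
      apply Real.rpow_le_rpow_of_exponent_le hn.le
      linarith
    refine mul_le_mul h2 h3 ?_ (Real.rpow_nonneg hn0.le _)
    exact Finset.prod_nonneg fun f hf => hv f (Finset.mem_filter.1 hf).1
  have h2 := hp.trans h1
  rw [← Real.rpow_add hn0, Real.rpow_le_rpow_left_iff hn] at h2
  rw [div_mul_eq_mul_div, le_div_iff₀ hA]
  nlinarith

lemma U_le {N q : ℕ} (h3 : (3 : ℝ) ≤ N) (hq1 : (1 : ℝ) ≤ q) :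
    8 * (N : ℝ) ^ 2 * (q : ℝ) ^ 3 ≤ ((N : ℝ) * q) ^ 4 := by
  have e1 : (8 : ℝ) ≤ (N : ℝ) ^ 2 := by nlinarith
  have e2 : (q : ℝ) ^ 3 ≤ (q : ℝ) ^ 4 := pow_le_pow_right₀ hq1 (by norm_num)
  calc 8 * (N : ℝ) ^ 2 * (q : ℝ) ^ 3 ≤ (N : ℝ) ^ 2 * (N : ℝ) ^ 2 * (q : ℝ) ^ 4 := by gcongr
    _ = ((N : ℝ) * q) ^ 4 := by ring

open Classical in
/-- the two bounds for the pairs -/
theorem pairs {N q : ℕ} [NeZero N] [NeZero q] (hN : N.Prime) (h3 : 3 ≤ N) (hco : q.Coprime N)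
    {B : Finset (S2 N)} (hB : W388.LV.IsNewBasis N 2 B) (X : Subgroup (DirichletCharacter ℂ q))
    [Fintype X] :
    ((N : ℝ) * q) ^ (-((1333 : ℝ) * ((B.card : ℝ) * (Fintype.card X : ℝ)))) ≤
      ∏ p ∈ ((Finset.univ : Finset (B × X)).filter fun p => p.2.1.IsPrimitive) with
        ‖cv p.1.1 p.2.1‖ ≠ 0, ‖cv p.1.1 p.2.1‖ := by
  have hN3 : (3 : ℝ) ≤ N := by exact_mod_cast h3
  have hN0 : (0 : ℝ) < N := by linarith
  have hq1 : (1 : ℝ) ≤ q := by exact_mod_cast Nat.pos_of_ne_zero (NeZero.ne q)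
  have hq0 : (0 : ℝ) < q := by linarith
  have hsq : 1 ≤ Real.sqrt q := by rw [Real.one_le_sqrt]; exact hq1
  have hnewf : ∀ f : B, ∃ ε : ℝ, W388.IsNewf N 2 f.1 ε := fun f => hB.newf f.1 f.2
  have hpr := prodV hN (by omega) hB hco X
  set E : ℝ := (N : ℝ) * q with hE
  have hE1 : (1 : ℝ) ≤ E := by rw [hE]; nlinarith
  have hqE : (q : ℝ) ≤ E := by rw [hE]; nlinarith
  have hE0 : (0 : ℝ) < E := by linarith
  set M : ℕ := B.card * Fintype.card X with hM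
  set Z : Finset (B × X) := (Finset.univ : Finset (B × X)).filter (fun p => Vc p.1.1 p.2.1 ≠ 0)
    with hZ
  set P : Finset (B × X) := Z.filter (fun p => p.2.1.IsPrimitive) with hP
  set T : Finset (B × X) := ((Finset.univ : Finset (B × X)).filter fun p =>
    p.2.1.IsPrimitive).filter (fun p => ‖cv p.1.1 p.2.1‖ ≠ 0) with hT
  have hcardZ : Z.card ≤ M := by
    have := Finset.card_le_univ Z
    rw [Fintype.card_prod, Fintype.card_coe] at this
    exact this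
  have hVbd : ∀ p : B × X, ‖Vc p.1.1 p.2.1‖ ≤ E ^ 4 := by
    intro p
    obtain ⟨ε, hε⟩ := hnewf p.1
    exact (Vc_bd hε hN p.2.1 hco).trans (U_le hN3 hq1)
  -- remove the imprimitive characters
  have h1 : ∏ p ∈ Z, ‖Vc p.1.1 p.2.1‖ ≤ E ^ (4 * M) * ∏ p ∈ P, ‖Vc p.1.1 p.2.1‖ := by
    rw [← Finset.prod_sdiff (Finset.filter_subset (fun p : B × X => p.2.1.IsPrimitive) Z)]
    refine mul_le_mul_of_nonneg_right ?_ (Finset.prod_nonneg fun p _ => norm_nonneg _)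
    calc ∏ p ∈ Z \ Z.filter (fun p => p.2.1.IsPrimitive), ‖Vc p.1.1 p.2.1‖ ≤
        ∏ _p ∈ Z \ Z.filter (fun p => p.2.1.IsPrimitive), E ^ 4 :=
          Finset.prod_le_prod (fun p _ => norm_nonneg _) fun p _ => hVbd p
      _ = (E ^ 4) ^ (Z \ Z.filter (fun p => p.2.1.IsPrimitive)).card := by rw [Finset.prod_const]
      _ ≤ (E ^ 4) ^ M := pow_le_pow_right₀ (one_le_pow₀ hE1)
          ((Finset.card_le_card Finset.sdiff_subset).trans hcardZ)
      _ = E ^ (4 * M) := by rw [← pow_mul]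
  -- the inverse characters
  have h2 : ∏ p ∈ T, (Real.sqrt q * ‖cv p.1.1 p.2.1‖) = ∏ p ∈ P, ‖Vc p.1.1 p.2.1‖ := by
    have hinvp : ∀ χ : DirichletCharacter ℂ q, χ.IsPrimitive → χ⁻¹.IsPrimitive := fun χ h =>
      Pool.Agent.W440.TW.inv_primitive χ h
    refine Finset.prod_nbij' (fun p => (p.1, p.2⁻¹)) (fun p => (p.1, p.2⁻¹)) ?_ ?_ ?_ ?_ ?_
    · intro p hp
      rw [hT, Finset.mem_filter, Finset.mem_filter] at hp
      obtain ⟨⟨-, hp1⟩, hp2⟩ := hp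
      obtain ⟨ε, hε⟩ := hnewf p.1
      have h5 := (cv_val hp1 hco hε).2
      rw [hP, Finset.mem_filter, hZ, Finset.mem_filter]
      refine ⟨⟨Finset.mem_univ _, ?_⟩, ?_⟩
      · show Vc p.1.1 p.2.1⁻¹ ≠ 0
        rw [← norm_ne_zero_iff, ← h5]
        exact mul_ne_zero (by linarith) hp2
      · exact hinvp _ hp1
    · intro p hp
      rw [hP, Finset.mem_filter, hZ, Finset.mem_filter] at hp
      obtain ⟨⟨-, hp2⟩, hp1⟩ := hp
      obtain ⟨ε, hε⟩ := hnewf p.1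
      have h5 := (cv_val (hinvp _ hp1) hco hε).2
      rw [inv_inv] at h5
      rw [hT, Finset.mem_filter, Finset.mem_filter]
      refine ⟨⟨Finset.mem_univ _, hinvp _ hp1⟩, ?_⟩
      intro h6
      have h7 : ‖cv p.1.1 (p.2.1)⁻¹‖ = 0 := h6
      rw [h7, mul_zero] at h5
      exact hp2 (norm_eq_zero.1 h5.symm)
    · intro p _
      simp
    · intro p _
      simp
    · intro p hp
      rw [hT, Finset.mem_filter, Finset.mem_filter] at hp
      obtain ⟨⟨-, hp1⟩, hp2⟩ := hp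
      obtain ⟨ε, hε⟩ := hnewf p.1
      exact (cv_val hp1 hco hε).2
  rw [Finset.prod_mul_distrib, Finset.prod_const] at h2
  have hcT : T.card ≤ M := by
    have := Finset.card_le_univ T
    rw [Fintype.card_prod, Fintype.card_coe] at this
    exact this
  have hT0 : 0 ≤ ∏ p ∈ T, ‖cv p.1.1 p.2.1‖ := Finset.prod_nonneg fun p _ => norm_nonneg _
  have h4 : (Real.sqrt q) ^ T.card ≤ E ^ M := by
    have e1 : Real.sqrt q ≤ q := by
      rw [Real.sqrt_le_left (by linarith)]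
      nlinarith
    calc (Real.sqrt q) ^ T.card ≤ E ^ T.card := by
          refine pow_le_pow_left₀ (Real.sqrt_nonneg _) (e1.trans hqE) _
      _ ≤ E ^ M := pow_le_pow_right₀ hE1 hcT
  have h5 : 1 / E ^ (1328 * M) ≤ E ^ (4 * M) * (E ^ M * ∏ p ∈ T, ‖cv p.1.1 p.2.1‖) := by
    refine hpr.trans (h1.trans (mul_le_mul_of_nonneg_left ?_ (by positivity)))
    rw [← h2]
    exact mul_le_mul_of_nonneg_right h4 hT0
  have h6 : 1 / E ^ (1333 * M) ≤ ∏ p ∈ T, ‖cv p.1.1 p.2.1‖ := by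
    rw [div_le_iff₀ (by positivity)] at h5 ⊢
    refine h5.trans (le_of_eq ?_)
    rw [show 1333 * M = 4 * M + M + 1328 * M by ring, pow_add, pow_add]
    ring
  refine le_trans (le_of_eq ?_) h6
  rw [Real.rpow_neg hE0.le, one_div]
  congr 1
  rw [show (1333 : ℝ) * ((B.card : ℝ) * (Fintype.card X : ℝ)) = ((1333 * M : ℕ) : ℝ) by
    rw [hM]; push_cast; ring, Real.rpow_natCast]

/-- the pairs as a finite set -/
theorem nz_eq {N q : ℕ} {B : Finset (S2 N)} (hH : HH N = B)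
    (X : Subgroup (DirichletCharacter ℂ q)) :
    (∀ p : B × X, p.1.1 ∈ HH N) ∧ ∀ p : S2 N × DirichletCharacter ℂ q, p ∈ nz N X →
      ∃ p' : B × X, p'.2.1.IsPrimitive ∧ cv p'.1.1 p'.2.1 ≠ 0 ∧ (p'.1.1, p'.2.1) = p := by
  refine ⟨fun p => by rw [hH]; exact p.1.2, ?_⟩
  rintro ⟨f, χ⟩ ⟨h1, h2, h3, h4⟩
  rw [hH] at h1
  exact ⟨(⟨f, h1⟩, ⟨χ, h2⟩), h3, h4, rfl⟩

/-- the product -/
theorem prod_nz {N q : ℕ} (hN : N.Prime) (h3 : 3 ≤ N) (hq : q ≠ 0) (hco : q.Coprime N)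
    (X : Subgroup (DirichletCharacter ℂ q)) :
    ((N : ℝ) * q) ^ (-(1333 * (((HH N).ncard : ℝ) * (Nat.card X : ℝ)))) ≤
      ∏ᶠ p ∈ nz N X, ‖cv p.1 p.2‖ := by
  classical
  have : NeZero N := ⟨hN.ne_zero⟩
  have : NeZero q := ⟨hq⟩
  have : Fintype X := Fintype.ofFinite X
  obtain ⟨B, hB, hH, -⟩ := one hN h3
  have h1 := pairs hN h3 hco hB X
  have hinj : Function.Injective (fun p : B × X => ((p.1.1, p.2.1) : S2 N × DirichletCharacter ℂ q)) := by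
    rintro ⟨f, χ⟩ ⟨f', χ'⟩ h
    have h5 := congrArg Prod.fst h
    have h6 := congrArg Prod.snd h
    exact Prod.ext (Subtype.ext h5) (Subtype.ext h6)
  have h2 : nz N X = ((((Finset.univ : Finset (B × X)).filter fun p => p.2.1.IsPrimitive).filter
      fun p => ‖cv p.1.1 p.2.1‖ ≠ 0).image
      (fun p : B × X => ((p.1.1, p.2.1) : S2 N × DirichletCharacter ℂ q)) : Set _) := by
    ext p
    constructor
    · intro hp
      obtain ⟨p', h4, h5, h6⟩ := (nz_eq hH X).2 p hp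
      rw [Finset.mem_coe, Finset.mem_image]
      refine ⟨p', ?_, h6⟩
      rw [Finset.mem_filter, Finset.mem_filter]
      exact ⟨⟨Finset.mem_univ _, h4⟩, norm_ne_zero_iff.2 h5⟩
    · intro hp
      rw [Finset.mem_coe, Finset.mem_image] at hp
      obtain ⟨p', h4, rfl⟩ := hp
      rw [Finset.mem_filter, Finset.mem_filter] at h4
      exact ⟨(nz_eq hH X).1 p', p'.2.2, h4.1.2, norm_ne_zero_iff.1 h4.2⟩
  rw [h2, finprod_mem_coe_finset, Finset.prod_image fun a _ b _ h => hinj h, hH,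
    Set.ncard_coe_finset, Nat.card_eq_fintype_card]
  exact h1

/-- the small values -/
theorem count_nz {N q : ℕ} (hN : N.Prime) (h3 : 3 ≤ N) (hq : q ≠ 0) (hco : q.Coprime N)
    (X : Subgroup (DirichletCharacter ℂ q)) {A : ℝ} (hA : 0 < A) :
    (({p ∈ nz N X | ‖cv p.1 p.2‖ < ((N : ℝ) * q) ^ (-A)}.ncard : ℕ) : ℝ) ≤
      1337 / A * (((HH N).ncard : ℝ) * (Nat.card X : ℝ)) := by
  classical
  have : NeZero N := ⟨hN.ne_zero⟩
  have : NeZero q := ⟨hq⟩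
  have : Fintype X := Fintype.ofFinite X
  have hN3 : (3 : ℝ) ≤ N := by exact_mod_cast h3
  have hq1 : (1 : ℝ) ≤ q := by exact_mod_cast Nat.pos_of_ne_zero hq
  obtain ⟨B, hB, hH, -⟩ := one hN h3
  have h1 := pairs hN h3 hco hB X
  have hE1 : (1 : ℝ) < (N : ℝ) * q := by nlinarith
  have h2 := count_M ((Finset.univ : Finset (B × X)).filter fun p => p.2.1.IsPrimitive)
    (fun p => ‖cv p.1.1 p.2.1‖) ((N : ℝ) * q) 1333 4 A ((B.card : ℝ) * (Fintype.card X : ℝ)) hE1 hA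
    (by norm_num) (by norm_num) (by
      have h5 := Finset.card_le_univ ((Finset.univ : Finset (B × X)).filter
        fun p => p.2.1.IsPrimitive)
      rw [Fintype.card_prod, Fintype.card_coe] at h5
      exact_mod_cast h5) (fun p _ => norm_nonneg _) (fun p hp => by
      have hp1 := (Finset.mem_filter.1 hp).2
      obtain ⟨ε, hε⟩ := hB.newf p.1.1 p.1.2
      have h5 := (cv_val hp1 hco hε).2
      have h6 := (Vc_bd hε hN (p.2.1)⁻¹ hco).trans (U_le hN3 hq1)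
      rw [← h5] at h6
      have h7 : 1 ≤ Real.sqrt q := by rw [Real.one_le_sqrt]; exact hq1
      rw [show (4 : ℝ) = ((4 : ℕ) : ℝ) by norm_num, Real.rpow_natCast]
      nlinarith [norm_nonneg (cv p.1.1 p.2.1)]) h1
  have h4 : ({p ∈ nz N X | ‖cv p.1 p.2‖ < ((N : ℝ) * q) ^ (-A)} : Set _) ⊆
      (((((Finset.univ : Finset (B × X)).filter fun p => p.2.1.IsPrimitive).filter
      fun p => ‖cv p.1.1 p.2.1‖ ≠ 0 ∧ ‖cv p.1.1 p.2.1‖ < ((N : ℝ) * q) ^ (-A)).image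
      (fun p : B × X => ((p.1.1, p.2.1) : S2 N × DirichletCharacter ℂ q)) : Finset _) : Set _) := by
    rintro p ⟨hp, hp2⟩
    obtain ⟨p', h4, h5, h6⟩ := (nz_eq hH X).2 p hp
    rw [Finset.mem_coe, Finset.mem_image]
    refine ⟨p', ?_, h6⟩
    rw [Finset.mem_filter, Finset.mem_filter]
    rw [← h6] at hp2
    exact ⟨⟨Finset.mem_univ _, h4⟩, norm_ne_zero_iff.2 h5, hp2⟩
  have h5 := Set.ncard_le_ncard h4 (Finset.finite_toSet _)
  rw [Set.ncard_coe_finset] at h5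
  have h6 := h5.trans Finset.card_image_le
  rw [hH, Set.ncard_coe_finset, Nat.card_eq_fintype_card]
  refine (Nat.cast_le.2 h6).trans (h2.trans (le_of_eq ?_))
  norm_num

/-- one character -/
theorem count_one {N q : ℕ} (hN : N.Prime) (h3 : 3 ≤ N) (hq : q ≠ 0) (hco : q.Coprime N)
    (χ : DirichletCharacter ℂ q) (hχ : χ.IsPrimitive) {A : ℝ} (hA : 0 < A) :
    (({f ∈ HH N | cv f χ ≠ 0 ∧ ‖cv f χ‖ < ((N : ℝ) * q) ^ (-A)}.ncard : ℕ) : ℝ) ≤
      1337 * (orderOf χ : ℝ) / A * ((HH N).ncard : ℝ) := by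
  have : NeZero q := ⟨hq⟩
  have h1 := count_nz hN h3 hq hco (Subgroup.zpowers χ) hA
  rw [Nat.card_zpowers] at h1
  have hfin : ({p ∈ nz N (Subgroup.zpowers χ) | ‖cv p.1 p.2‖ < ((N : ℝ) * q) ^ (-A)} :
      Set (S2 N × DirichletCharacter ℂ q)).Finite := by
    have h5 : (HH N ×ˢ (Set.univ : Set (DirichletCharacter ℂ q))).Finite :=
      (fin hN h3).prod Set.finite_univ
    exact h5.subset fun p hp => ⟨hp.1.1, trivial⟩
  have h2 : ({f ∈ HH N | cv f χ ≠ 0 ∧ ‖cv f χ‖ < ((N : ℝ) * q) ^ (-A)} : Set (S2 N)).ncard ≤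
      ({p ∈ nz N (Subgroup.zpowers χ) | ‖cv p.1 p.2‖ < ((N : ℝ) * q) ^ (-A)} :
        Set (S2 N × DirichletCharacter ℂ q)).ncard := by
    refine Set.ncard_le_ncard_of_injOn (fun f => (f, χ)) ?_ ?_ hfin
    · rintro f ⟨h5, h6, h7⟩
      exact ⟨⟨h5, Subgroup.mem_zpowers χ, hχ, h6⟩, h7⟩
    · intro f _ f' _ h
      exact congrArg Prod.fst h
  refine (Nat.cast_le.2 h2).trans (h1.trans (le_of_eq ?_))
  ring

/-- the lower limits for several fixed characters -/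
theorem limits {k : ℕ} (q : Fin k → ℕ) (χ : ∀ j, DirichletCharacter ℂ (q j))
    (hχ : ∀ j, q j ≠ 0 ∧ (χ j).IsPrimitive) (θ : ℝ) :
    θ < liminf (fun N : ℕ =>
        (({f ∈ H N 1 | ∀ j, cv f (χ j) ≠ 0}.ncard : ℕ) : ℝ) / ((H N 1).ncard : ℝ)) primes ↔
      ∃ A : ℝ, 0 < A ∧ θ < liminf (fun N : ℕ =>
        (({f ∈ H N 1 | ∀ j, (N : ℝ) ^ (-A) ≤ ‖cv f (χ j)‖}.ncard : ℕ) : ℝ) /
          ((H N 1).ncard : ℝ)) primes := by
  classical
  have hbot : primes.NeBot := by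
    unfold primes
    rw [← frequently_mem_iff_neBot]
    exact Nat.frequently_atTop_iff_infinite.2 Nat.infinite_setOfPred_prime
  have hprime : ∀ᶠ N in primes, N.Prime :=
    (eventually_principal.2 fun _ h => h : ∀ᶠ N in 𝓟 {N : ℕ | N.Prime}, N.Prime).filter_mono
      inf_le_right
  set Q0 : ℕ := 650 + ∑ j, q j with hQ0
  have hlarge : ∀ᶠ N in primes, Q0 ≤ N :=
    (eventually_ge_atTop Q0).filter_mono inf_le_left
  have hqle : ∀ N : ℕ, Q0 ≤ N → ∀ j, q j < N := by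
    intro N hN j
    have : q j ≤ ∑ j, q j := Finset.single_le_sum (f := q) (fun _ _ => Nat.zero_le _) (Finset.mem_univ j)
    omega
  have hcop : ∀ N : ℕ, N.Prime → Q0 ≤ N → ∀ j, (q j).Coprime N := by
    intro N hN hQ j
    refine ((Nat.Prime.coprime_iff_not_dvd hN).2 fun h => ?_).symm
    have := Nat.le_of_dvd (Nat.pos_of_ne_zero (hχ j).1) h
    have := hqle N hQ j
    omega
  set K : ℝ := ∑ j, 2 * (1337 * (orderOf (χ j) : ℝ)) * 20 with hK
  refine Fin.liminf_iff (l := primes) (fun N => ((H N 1).ncard : ℝ))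
    (fun N => (({f ∈ H N 1 | ∀ j, cv f (χ j) ≠ 0}.ncard : ℕ) : ℝ))
    (fun A N => (({f ∈ H N 1 | ∀ j, (N : ℝ) ^ (-A) ≤ ‖cv f (χ j)‖}.ncard : ℕ) : ℝ))
    K (by positivity) ?_ ?_ ?_ ?_ θ
  · filter_upwards [hprime, hlarge] with N hN h100
    have := (even_many hN (by omega)).1
    have : 0 < (H N 1).ncard := by omega
    exact_mod_cast this
  · filter_upwards [hprime, hlarge] with N hN h100
    refine ⟨Nat.cast_nonneg _, ?_⟩
    have hfin : (H N 1).Finite := (fin hN (by omega)).subset fun f hf => Or.inl hf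
    have hs : {f ∈ H N 1 | ∀ j, cv f (χ j) ≠ 0} ⊆ H N 1 := fun f hf => hf.1
    exact Nat.cast_le.2 (Set.ncard_le_ncard hs hfin)
  · intro A
    filter_upwards [hprime, hlarge] with N hN h100
    refine ⟨Nat.cast_nonneg _, ?_⟩
    have hfin : (H N 1).Finite := (fin hN (by omega)).subset fun f hf => Or.inl hf
    have hN0 : (0 : ℝ) < N := Nat.cast_pos.2 hN.pos
    have hs : {f ∈ H N 1 | ∀ j, (N : ℝ) ^ (-A) ≤ ‖cv f (χ j)‖} ⊆
        {f ∈ H N 1 | ∀ j, cv f (χ j) ≠ 0} := by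
      refine fun f hf => ⟨hf.1, fun j h0 => ?_⟩
      have h1 := hf.2 j
      rw [h0, norm_zero] at h1
      exact absurd (Real.rpow_pos_of_pos hN0 (-A)) (not_lt.2 h1)
    exact Nat.cast_le.2 (Set.ncard_le_ncard hs (hfin.subset fun f hf => hf.1))
  · intro A hA
    filter_upwards [hprime, hlarge] with N hN h100
    have hfinHH : (HH N).Finite := fin hN (by omega)
    have hfin : (H N 1).Finite := hfinHH.subset fun f hf => Or.inl hf
    have hN1 : (1 : ℝ) ≤ N := by exact_mod_cast hN.one_le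
    have h2 : {f ∈ H N 1 | ∀ j, cv f (χ j) ≠ 0} ⊆ {f ∈ H N 1 | ∀ j, (N : ℝ) ^ (-A) ≤ ‖cv f (χ j)‖} ∪
        ⋃ j ∈ (Finset.univ : Finset (Fin k)),
          {f ∈ HH N | cv f (χ j) ≠ 0 ∧ ‖cv f (χ j)‖ < ((N : ℝ) * (q j : ℝ)) ^ (-(A / 2))} := by
      intro f hf
      by_cases h : ∀ j, (N : ℝ) ^ (-A) ≤ ‖cv f (χ j)‖
      · exact Or.inl ⟨hf.1, h⟩
      · push Not at h
        obtain ⟨j, hj⟩ := h
        right
        rw [Set.mem_iUnion₂]
        refine ⟨j, Finset.mem_univ _, Or.inl hf.1, hf.2 j, hj.trans_le ?_⟩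
        have hqN : (q j : ℝ) ≤ N := by exact_mod_cast (hqle N h100 j).le
        have hq1 : (1 : ℝ) ≤ q j := by exact_mod_cast Nat.pos_of_ne_zero (hχ j).1
        have e1 : (N : ℝ) ^ (-A) = ((N : ℝ) * N) ^ (-(A / 2)) := by
          rw [← sq, ← Real.rpow_natCast, ← Real.rpow_mul (by linarith)]
          congr 1
          push_cast
          ring
        rw [e1]
        exact Real.rpow_le_rpow_of_nonpos (by nlinarith)
          (mul_le_mul_of_nonneg_left hqN (by linarith)) (by linarith)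
    have hfin2 : ∀ j : Fin k, ({f ∈ HH N | cv f (χ j) ≠ 0 ∧
        ‖cv f (χ j)‖ < ((N : ℝ) * (q j : ℝ)) ^ (-(A / 2))} : Set (S2 N)).Finite := fun j =>
      hfinHH.subset fun f hf => hf.1
    have hfin3 : (⋃ j ∈ (Finset.univ : Finset (Fin k)), {f ∈ HH N | cv f (χ j) ≠ 0 ∧
        ‖cv f (χ j)‖ < ((N : ℝ) * (q j : ℝ)) ^ (-(A / 2))} : Set (S2 N)).Finite :=
      Set.Finite.biUnion (Finset.finite_toSet _) fun j _ => hfin2 j
    have h3 : ({f ∈ H N 1 | ∀ j, cv f (χ j) ≠ 0} : Set (S2 N)).ncard ≤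
        ({f ∈ H N 1 | ∀ j, (N : ℝ) ^ (-A) ≤ ‖cv f (χ j)‖} : Set (S2 N)).ncard +
        ∑ j : Fin k, ({f ∈ HH N | cv f (χ j) ≠ 0 ∧
          ‖cv f (χ j)‖ < ((N : ℝ) * (q j : ℝ)) ^ (-(A / 2))} : Set (S2 N)).ncard := by
      refine (Set.ncard_le_ncard h2 ?_).trans ((Set.ncard_union_le _ _).trans ?_)
      · exact (hfin.subset fun f hf => hf.1).union hfin3
      · exact Nat.add_le_add_left (Finset.set_ncard_biUnion_le _ _) _
    have h4 : (({f ∈ H N 1 | ∀ j, cv f (χ j) ≠ 0}.ncard : ℕ) : ℝ) ≤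
        (({f ∈ H N 1 | ∀ j, (N : ℝ) ^ (-A) ≤ ‖cv f (χ j)‖}.ncard : ℕ) : ℝ) +
        ∑ j : Fin k, (({f ∈ HH N | cv f (χ j) ≠ 0 ∧
          ‖cv f (χ j)‖ < ((N : ℝ) * (q j : ℝ)) ^ (-(A / 2))}.ncard : ℕ) : ℝ) := by
      exact_mod_cast h3
    have h5 : ((HH N).ncard : ℝ) ≤ 20 * ((H N 1).ncard : ℝ) := by
      exact_mod_cast (even_many hN (by omega)).2 (by omega)
    have h6 : ∑ j : Fin k, (({f ∈ HH N | cv f (χ j) ≠ 0 ∧
          ‖cv f (χ j)‖ < ((N : ℝ) * (q j : ℝ)) ^ (-(A / 2))}.ncard : ℕ) : ℝ) ≤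
        K / A * ((H N 1).ncard : ℝ) := by
      rw [hK, Finset.sum_div, Finset.sum_mul]
      refine Finset.sum_le_sum fun j _ => ?_
      refine (count_one hN (by omega) (hχ j).1 (hcop N hN h100 j) (χ j) (hχ j).2
        (by positivity : 0 < A / 2)).trans ?_
      have e1 : (0 : ℝ) ≤ 1337 * (orderOf (χ j) : ℝ) / (A / 2) := by positivity
      calc 1337 * (orderOf (χ j) : ℝ) / (A / 2) * ((HH N).ncard : ℝ) ≤
          1337 * (orderOf (χ j) : ℝ) / (A / 2) * (20 * ((H N 1).ncard : ℝ)) :=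
            mul_le_mul_of_nonneg_left h5 e1
        _ = 2 * (1337 * (orderOf (χ j) : ℝ)) * 20 / A * ((H N 1).ncard : ℝ) := by
          field_simp
    linarith

/-- **The central values of the twists by the characters of a group.** -/
theorem result :
    (∀ (N q : ℕ) (χ : DirichletCharacter ℂ q), N.Prime → q ≠ 0 → q.Coprime N → χ.IsPrimitive →
      ∀ f ∈ HH N, ∃ L : ℂ → ℂ, IsLfun f χ L ∧ L (1 / 2) = cv f χ) ∧
    (∀ (N q : ℕ) (X : Subgroup (DirichletCharacter ℂ q)), N.Prime → 3 ≤ N → q ≠ 0 →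
      q.Coprime N → (HH N).Finite ∧
      ((N : ℝ) * q) ^ (-(1333 * (((HH N).ncard : ℝ) * (Nat.card X : ℝ)))) ≤
        ∏ᶠ p ∈ nz N X, ‖cv p.1 p.2‖ ∧
      ∀ A : ℝ, 0 < A → (({p ∈ nz N X | ‖cv p.1 p.2‖ < ((N : ℝ) * q) ^ (-A)}.ncard : ℕ) : ℝ) ≤
        1337 / A * (((HH N).ncard : ℝ) * (Nat.card X : ℝ))) ∧
    (∀ (N q : ℕ) (A : ℝ), N.Prime → 3 ≤ N → q ≠ 0 → q.Coprime N → 0 < A →
      (({p : S2 N × DirichletCharacter ℂ q | p.1 ∈ HH N ∧ p.2.IsPrimitive ∧ cv p.1 p.2 ≠ 0 ∧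
        ‖cv p.1 p.2‖ < ((N : ℝ) * q) ^ (-A)}.ncard : ℕ) : ℝ) ≤
        1337 / A * (((HH N).ncard : ℝ) * (q.totient : ℝ))) ∧
    (∀ (N q : ℕ) (χ : DirichletCharacter ℂ q) (A : ℝ), N.Prime → 3 ≤ N → q ≠ 0 →
      q.Coprime N → χ.IsPrimitive → 0 < A →
      (({f ∈ HH N | cv f χ ≠ 0 ∧ ‖cv f χ‖ < ((N : ℝ) * q) ^ (-A)}.ncard : ℕ) : ℝ) ≤
        1337 * (orderOf χ : ℝ) / A * ((HH N).ncard : ℝ)) ∧
    (∀ (k : ℕ) (q : Fin k → ℕ) (χ : ∀ j, DirichletCharacter ℂ (q j)),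
      (∀ j, q j ≠ 0 ∧ (χ j).IsPrimitive) → ∀ θ : ℝ,
      (θ < liminf (fun N : ℕ =>
          (({f ∈ H N 1 | ∀ j, cv f (χ j) ≠ 0}.ncard : ℕ) : ℝ) / ((H N 1).ncard : ℝ)) primes ↔
        ∃ A : ℝ, 0 < A ∧ θ < liminf (fun N : ℕ =>
          (({f ∈ H N 1 | ∀ j, (N : ℝ) ^ (-A) ≤ ‖cv f (χ j)‖}.ncard : ℕ) : ℝ) /
            ((H N 1).ncard : ℝ)) primes)) := by
  refine ⟨fun N q χ hN hq hco hχ f hf => ?_, fun N q X hN h3 hq hco =>
    ⟨fin hN h3, prod_nz hN h3 hq hco X, fun A hA => count_nz hN h3 hq hco X hA⟩,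
    fun N q A hN h3 hq hco hA => ?_, fun N q χ A hN h3 hq hco hχ hA =>
      count_one hN h3 hq hco χ hχ hA, fun k q χ h θ => limits q χ h θ⟩
  · have : NeZero N := ⟨hN.ne_zero⟩
    have : NeZero q := ⟨hq⟩
    rw [HH_eq] at hf
    obtain ⟨ε, hε⟩ := hf
    exact (cv_val hχ hco hε).1
  · have : NeZero q := ⟨hq⟩
    have h1 := count_nz hN h3 hq hco (⊤ : Subgroup (DirichletCharacter ℂ q)) hA
    have h2 : Nat.card (⊤ : Subgroup (DirichletCharacter ℂ q)) = q.totient := by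
      rw [Nat.card_congr (Subgroup.topEquiv (G := DirichletCharacter ℂ q)).toEquiv]
      exact DirichletCharacter.card_eq_totient_of_hasEnoughRootsOfUnity ℂ q
    rw [h2] at h1
    have h4 : {p : S2 N × DirichletCharacter ℂ q | p.1 ∈ HH N ∧ p.2.IsPrimitive ∧ cv p.1 p.2 ≠ 0 ∧
        ‖cv p.1 p.2‖ < ((N : ℝ) * q) ^ (-A)} =
        {p ∈ nz N (⊤ : Subgroup (DirichletCharacter ℂ q)) | ‖cv p.1 p.2‖ < ((N : ℝ) * q) ^ (-A)} := by
      ext p
      constructor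
      · rintro ⟨h5, h6, h7, h8⟩
        exact ⟨⟨h5, Subgroup.mem_top _, h6, h7⟩, h8⟩
      · rintro ⟨⟨h5, -, h6, h7⟩, h8⟩
        exact ⟨h5, h6, h7, h8⟩
    rw [h4]
    exact h1

end Pool.Agent.Results.MP_cc4f83_nt.CharacterFamilies
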