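import Pool.Agent.J4.H50.CV.A5
import Pool.Agent.K4H13.CV.Ex2
import Pool.Agent.K4H13.CV.Hp
import Pool.Agent.K4H13.CV.Hpc
import Pool.Agent.K4H13.CV.Hpr
import Pool.Agent.K4H13.CV.Hpv

/-!
# Integral linear forms in the central values of the quadratic twists of the newforms of weight
two and prime level
-/

set_option autoImplicit false

open Complex Filter Topology Set UpperHalfPlane MatrixGroups CongruenceSubgroup

namespace Pool.Agent.Results.MP_cc4f83_nt.LinearFormsOfTwists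

/-- the cusp forms of weight 2 for `Γ₀(N)` -/
abbrev S2 (N : ℕ) : Type := CuspForm (Gamma0 N : Subgroup (GL (Fin 2) ℝ)) 2

/-- the newforms of root number `ε`: `a(1) = 1`, real coefficients, Hecke relations, and
`f(-1/(Nz)) = - ε N z² f(z)` with `ε = 1` or `ε = -1` (see `W388.IsNewf`) -/
def H (N : ℕ) (ε : ℝ) : Set (S2 N) := {f | W388.IsNewf N 2 f ε}

/-- all newforms -/
def HH (N : ℕ) : Set (S2 N) := H N 1 ∪ H N (-1)

/-- `χ` is a real primitive character (the trivial character of conductor `1` is one) and its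
conductor `q` is prime to `N` -/
def Adm (N q : ℕ) (χ : DirichletCharacter ℂ q) : Prop :=
  q ≠ 0 ∧ q.Coprime N ∧ χ.IsPrimitive ∧ χ ^ 2 = 1

/-- `L` is the L-function of `f ⊗ χ`: the entire continuation of `∑ χ(n) λ_f(n) n^(-s)`, where
`λ_f(n) = a(n) n^(-1/2)` -/
def IsLfun {N q : ℕ} (f : S2 N) (χ : DirichletCharacter ℂ q) (L : ℂ → ℂ) : Prop :=
  Differentiable ℂ L ∧
    ∀ s : ℂ, 3 < s.re → L s = ∑' n : ℕ, χ (n : ZMod q) * (W388.lamf f n : ℂ) * (n : ℂ) ^ (-s)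

open Classical in
/-- the central value `L(1/2, f ⊗ χ)` -/
noncomputable def cv {N q : ℕ} (f : S2 N) (χ : DirichletCharacter ℂ q) : ℝ :=
  if h : ∃ L : ℂ → ℂ, IsLfun f χ L then (h.choose (1 / 2)).re else 0

/-- the linear form `∑ m_j √q_j L(1/2, f ⊗ χ_j)` -/
noncomputable def lf {N k : ℕ} (f : S2 N) (q : Fin k → ℕ) (χ : ∀ j, DirichletCharacter ℂ (q j))
    (m : Fin k → ℤ) : ℝ := ∑ j, (m j : ℝ) * (Real.sqrt (q j) * cv f (χ j))

/-- the central value of the additive twist of `f` by `r`: the limit for `y → 0+` of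
`∑ a(n)/n e(n(r + iy))` -/
noncomputable def av {N : ℕ} (f : S2 N) (r : ℚ) : ℂ :=
  limUnder (𝓝[>] (0 : ℝ)) fun y : ℝ => ∑' n : ℕ, (qExpansion 1 f).coeff n / n *
    Complex.exp (2 * Real.pi * Complex.I * n * ((r : ℂ) + (y : ℂ) * Complex.I))

/-- the filter of the primes `N → ∞` -/
def primes : Filter ℕ := atTop ⊓ 𝓟 {N : ℕ | N.Prime}

open Pool.Agent.K4H13.CV Pool.Agent.Y18.BSD Pool.Agent.J4.H50.CV

theorem HH_eq (N : ℕ) : HH N = {f | ∃ ε : ℝ, W388.IsNewf N 2 f ε} := by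
  ext f
  constructor
  · rintro (h | h)
    · exact ⟨1, h⟩
    · exact ⟨-1, h⟩
  · rintro ⟨ε, h⟩
    rcases h.sign with rfl | rfl
    · exact Or.inl h
    · exact Or.inr h

theorem cvT {N q : ℕ} [NeZero N] [NeZero q] {χ : DirichletCharacter ℂ q} (hA : Adm N q χ) :
    ∃ e : ℤ, (e = 1 ∨ e = -1) ∧ ∀ (f : S2 N) (ε : ℝ), W388.IsNewf N 2 f ε →
      (∃ L : ℂ → ℂ, IsLfun f χ L ∧ L (1 / 2) = (cv f χ : ℂ)) ∧
      Tc f χ = ii (par χ) * (((e : ℝ) * (Real.sqrt q * cv f χ) : ℝ) : ℂ) := by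
  obtain ⟨e, he, h⟩ := central (N := N) hA.2.2.2 hA.2.2.1 hA.2.1
  refine ⟨e, he, fun f ε hf => ?_⟩
  obtain ⟨L, hL, h1, h2⟩ := h f ε hf
  have hex : ∃ L : ℂ → ℂ, IsLfun f χ L := ⟨L, hL.diff, hL.eq⟩
  have h3 : cv f χ = (hex.choose (1 / 2)).re := by
    unfold cv
    rw [dif_pos hex]
  have h4 : hex.choose = L := IsLc.unique ⟨hex.choose_spec.1, hex.choose_spec.2⟩ hL
  rw [h4] at h3
  refine ⟨⟨L, ⟨hL.diff, hL.eq⟩, by rw [h3]; exact h1⟩, ?_⟩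
  rw [h2, h3]
  congr 2
  ring

/-- the number of the odd newforms -/
theorem hp : S_HP := HpP.hp_of (hpv span (free span) (wt span)) hpc hpr

/-- all the data of one prime -/
theorem one {N : ℕ} [NeZero N] (hN : N.Prime) (h3 : 3 ≤ N) : ∃ B : Finset (S2 N),
    W388.LV.IsNewBasis N 2 B ∧ HH N = B ∧ N ≤ 12 * B.card + 13 ∧
    ∀ P : Finset (S2 N), P ⊆ B → (∀ f ∈ P, f ∈ H N (-1)) → 18 * P.card ≤ N + 13 := by
  obtain ⟨B, hB, hBm⟩ := newform_basis N hN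
  have h2 : N ≠ 2 := by omega
  obtain ⟨d1, d2, -⟩ := dimS hyp hN h2 hB
  refine ⟨B, hB, ?_, d2, ?_⟩
  · rw [HH_eq]
    ext f
    exact (hBm f).symm
  · intro P hP hPm
    have := hp N hN h2 B hB P hP hPm
    omega

theorem fin {N : ℕ} (hN : N.Prime) (h3 : 3 ≤ N) : (HH N).Finite := by
  have : NeZero N := ⟨hN.ne_zero⟩
  obtain ⟨B, -, hB, -⟩ := one hN h3
  rw [hB]
  exact B.finite_toSet

/-- there are many even newforms -/
theorem even_many {N : ℕ} (hN : N.Prime) (h3 : 3 ≤ N) : N ≤ 36 * (H N 1).ncard + 65 ∧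
    (650 ≤ N → (HH N).ncard ≤ 20 * (H N 1).ncard) := by
  classical
  have : NeZero N := ⟨hN.ne_zero⟩
  obtain ⟨B, -, hB, hd, hP⟩ := one hN h3
  have hm : (H N (-1)).ncard ≤ (B.filter fun f => f ∈ H N (-1)).card := by
    rw [← Set.ncard_coe_finset]
    refine Set.ncard_le_ncard (fun f hf => ?_) (Finset.finite_toSet _)
    rw [Finset.coe_filter]
    have : f ∈ HH N := Or.inr hf
    rw [hB] at this
    exact ⟨this, hf⟩
  have h1 := hP _ (Finset.filter_subset (fun f => f ∈ H N (-1)) B) fun f hf => (Finset.mem_filter.1 hf).2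
  have h2 : B.card ≤ (H N 1).ncard + (H N (-1)).ncard := by
    rw [← Set.ncard_coe_finset, ← hB]
    exact Set.ncard_union_le _ _
  have h4 : (HH N).ncard = B.card := by rw [hB, Set.ncard_coe_finset]
  rw [h4]
  constructor
  · omega
  · intro _
    omega

/-- from the boundary values to a real function on the newforms -/
theorem prodB {N : ℕ} [NeZero N] (hN : N.Prime) (h3 : 3 ≤ N) {B : Finset (S2 N)}
    (hB : W388.LV.IsNewBasis N 2 B) {V : B → ℂ} (hV : V ∈ FF B) (b : Bool)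
    (g : S2 N → ℝ) (hg : ∀ f : B, |pt b (V f)| = |g f.1|) :
    (N : ℝ) ^ (-((668 : ℝ) * (B.card : ℝ))) ≤ ∏ f ∈ B with |g f| ≠ 0, |g f| := by
  classical
  have h1 := prod_all hN (by omega) hB hV b
  have hN0 : (0 : ℝ) < N := Nat.cast_pos.2 hN.pos
  have e1 : ∏ f ∈ (Finset.univ : Finset B).filter (fun f => pt b (V f) ≠ 0), |pt b (V f)| =
      ∏ f ∈ B with |g f| ≠ 0, |g f| := by
    rw [Finset.prod_filter, Finset.prod_filter,
      ← Finset.prod_coe_sort B (fun f => if |g f| ≠ 0 then |g f| else 1)]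
    refine Finset.prod_congr rfl fun f _ => ?_
    rw [← hg f]
    simp only [ne_eq, abs_eq_zero]
  rw [← e1]
  refine le_trans (le_of_eq ?_) h1
  rw [Real.rpow_neg hN0.le, one_div]
  congr 1
  rw [show (668 : ℝ) * (B.card : ℝ) = ((668 * B.card : ℕ) : ℝ) by push_cast; rfl,
    Real.rpow_natCast]

/-- the product over the set of all newforms -/
theorem prod_eq {N : ℕ} {B : Finset (S2 N)} (hB : HH N = B) (g : S2 N → ℝ) :
    ∏ f ∈ B with |g f| ≠ 0, |g f| = ∏ᶠ f ∈ {f ∈ HH N | g f ≠ 0}, |g f| := by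
  classical
  have e1 : ({f ∈ HH N | g f ≠ 0} : Set (S2 N)) =
      ((B.filter fun f => |g f| ≠ 0 : Finset (S2 N)) : Set (S2 N)) := by
    ext f
    rw [Finset.coe_filter]
    constructor
    · intro hf
      have : f ∈ HH N := hf.1
      rw [hB] at this
      exact ⟨this, abs_ne_zero.2 hf.2⟩
    · intro hf
      refine ⟨?_, abs_ne_zero.1 hf.2⟩
      rw [hB]
      exact hf.1
  rw [e1, finprod_mem_coe_finset]

/-- the number of the small values -/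
theorem countB {N : ℕ} {B : Finset (S2 N)} (hB : HH N = B) (g : S2 N → ℝ) (n A : ℝ) (hn : 1 < n)
    (hA : 0 < A) (hu : ∀ f ∈ B, |g f| ≤ n ^ (4 : ℝ))
    (hp : n ^ (-((668 : ℝ) * (B.card : ℝ))) ≤ ∏ f ∈ B with |g f| ≠ 0, |g f|) :
    (({f ∈ HH N | g f ≠ 0 ∧ |g f| < n ^ (-A)}.ncard : ℕ) : ℝ) ≤
      672 / A * ((HH N).ncard : ℝ) := by
  classical
  have h1 := Fin.count B (fun f => |g f|) n 668 4 A hn hA
    (by norm_num) (by norm_num) (fun f _ => abs_nonneg _) hu hp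
  have e1 : ({f ∈ HH N | g f ≠ 0 ∧ |g f| < n ^ (-A)} : Set (S2 N)) ⊆
      ((B.filter fun f => |g f| ≠ 0 ∧ |g f| < n ^ (-A) : Finset (S2 N)) : Set (S2 N)) := by
    intro f hf
    have : f ∈ HH N := hf.1
    rw [hB] at this
    rw [Finset.coe_filter]
    exact ⟨this, abs_ne_zero.2 hf.2.1, hf.2.2⟩
  have h2 := Set.ncard_le_ncard e1 (Finset.finite_toSet _)
  rw [Set.ncard_coe_finset] at h2
  have h4 : (HH N).ncard = B.card := by rw [hB, Set.ncard_coe_finset]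
  rw [h4]
  refine (Nat.cast_le.2 h2).trans (h1.trans (le_of_eq ?_))
  norm_num

lemma pt_int (b : Bool) (n : ℤ) (z : ℂ) : pt b ((n : ℂ) * z) = (n : ℝ) * pt b z := by
  unfold pt
  cases b
  · simp only [Bool.false_eq_true, if_false, Complex.mul_im, Complex.intCast_re,
      Complex.intCast_im, zero_mul, add_zero]
  · simp only [if_true, Complex.mul_re, Complex.intCast_re,
      Complex.intCast_im, zero_mul, sub_zero]

lemma Tc_bd {N q : ℕ} [NeZero N] [NeZero q] (χ : DirichletCharacter ℂ q) (hN : N.Prime)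
    (hco : q.Coprime N) {f : S2 N} {ε : ℝ} (hf : W388.IsNewf N 2 f ε) :
    ‖Tc f χ‖ ≤ 8 * (N : ℝ) ^ 2 * (q : ℝ) ^ 3 := by
  have h1 := sum_bd (N := N) (Finset.univ : Finset (ZMod q)ˣ)
    (fun u => (((u : ZMod q).val : ℚ) / q)) (vi χ) (fun u _ => den_u hco u) q
    (fun u _ => den_u_le u) hf (coef N hN f ε hf)
  refine h1.trans ?_
  have h2 : ∑ u : (ZMod q)ˣ, |((vi χ u : ℤ) : ℝ)| ≤ q := by
    calc ∑ u : (ZMod q)ˣ, |((vi χ u : ℤ) : ℝ)| ≤ ∑ _u : (ZMod q)ˣ, (1 : ℝ) := by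
          refine Finset.sum_le_sum fun u _ => ?_
          unfold vi
          split_ifs <;> simp
      _ = (Fintype.card (ZMod q)ˣ : ℝ) := by simp
      _ ≤ q := by
          rw [ZMod.card_units_eq_totient]
          exact_mod_cast Nat.totient_le q
  calc 8 * (N : ℝ) ^ 2 * (q : ℝ) ^ 2 * ∑ u : (ZMod q)ˣ, |((vi χ u : ℤ) : ℝ)| ≤
      8 * (N : ℝ) ^ 2 * (q : ℝ) ^ 2 * q := by gcongr
    _ = _ := by ring

lemma ii_norm (b : Bool) : ‖ii b‖ = 1 := by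
  unfold ii
  cases b <;> simp

lemma cv_bd {N q : ℕ} [NeZero N] {χ : DirichletCharacter ℂ q} (hN : N.Prime)
    (hA : Adm N q χ) {f : S2 N} {ε : ℝ} (hf : W388.IsNewf N 2 f ε) :
    |Real.sqrt q * cv f χ| ≤ 8 * (N : ℝ) ^ 2 * (q : ℝ) ^ 3 := by
  have : NeZero q := ⟨hA.1⟩
  obtain ⟨e, he, h⟩ := cvT hA
  obtain ⟨-, h1⟩ := h f ε hf
  have h2 := Tc_bd χ hN hA.2.1 hf
  rw [h1, norm_mul, ii_norm, one_mul, Complex.norm_real, Real.norm_eq_abs, abs_mul] at h2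
  have : |(e : ℝ)| = 1 := by rcases he with rfl | rfl <;> simp
  rwa [this, one_mul] at h2

/-- a linear form in the twists is an integral linear form in the boundary values -/
theorem lf_form {N k : ℕ} [NeZero N] {B : Finset (S2 N)} (hBn : ∀ f ∈ B, ∃ ε : ℝ, W388.IsNewf N 2 f ε)
    (q : Fin k → ℕ) (χ : ∀ j, DirichletCharacter ℂ (q j)) (m : Fin k → ℤ)
    (hA : ∀ j, Adm N (q j) (χ j)) (s : ℂ) (hs : ∀ j, χ j (-1) = s) :
    ∃ (V : B → ℂ) (b : Bool), V ∈ FF B ∧ ∀ f : B, pt b (V f) = lf f.1 q χ m := by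
  classical
  have : ∀ j, NeZero (q j) := fun j => ⟨(hA j).1⟩
  have h := fun j => cvT (hA j)
  choose e he h using h
  refine ⟨fun f => ∑ j, ((m j * e j : ℤ) : ℂ) * Tc f.1 (χ j), decide (s = 1), ?_, fun f => ?_⟩
  · have h1 : ∑ j, (m j * e j) • (fun f : B => Tc f.1 (χ j)) ∈ FF B := by
      refine (FF B).sum_mem fun j _ => (FF B).zsmul_mem ?_ _
      exact FF_sum B (Finset.univ : Finset (ZMod (q j))ˣ)
        (fun u => (((u : ZMod (q j)).val : ℚ) / (q j))) (vi (χ j)) (fun u _ => den_u (hA j).2.1 u)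
    refine (congrArg (· ∈ FF B) ?_).mp h1
    funext f
    rw [Finset.sum_apply]
    refine Finset.sum_congr rfl fun j _ => ?_
    rw [Pi.smul_apply, zsmul_eq_mul]
  · obtain ⟨ε, hε⟩ := hBn f.1 f.2
    rw [pt_sum]
    unfold lf
    refine Finset.sum_congr rfl fun j _ => ?_
    have hb : par (χ j) = decide (s = 1) := by
      unfold par
      rw [hs j]
    rw [pt_int, (h j f.1 ε hε).2, hb, pt_ii]
    have he2 : (e j : ℝ) * (e j : ℝ) = 1 := by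
      rcases he j with h5 | h5 <;> rw [h5] <;> norm_num
    push_cast
    linear_combination (m j : ℝ) * (Real.sqrt (q j) * cv f.1 (χ j)) * he2

theorem lf_bd {N k : ℕ} [NeZero N] (hN : N.Prime) (h3 : 3 ≤ N) {f : S2 N} {ε : ℝ}
    (hf : W388.IsNewf N 2 f ε)
    (q : Fin k → ℕ) (χ : ∀ j, DirichletCharacter ℂ (q j)) (m : Fin k → ℤ)
    (hA : ∀ j, Adm N (q j) (χ j)) (Q : ℝ) (hQ1 : 1 ≤ Q) (hQ : ∀ j, (q j : ℝ) ≤ Q)
    (hm : ∑ j, |(m j : ℝ)| ≤ Q) : |lf f q χ m| ≤ ((N : ℝ) * Q) ^ (4 : ℝ) := by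
  have hN3 : (3 : ℝ) ≤ N := by exact_mod_cast h3
  unfold lf
  have h1 : ∀ j, |(m j : ℝ) * (Real.sqrt (q j) * cv f (χ j))| ≤
      |(m j : ℝ)| * (8 * (N : ℝ) ^ 2 * Q ^ 3) := by
    intro j
    rw [abs_mul]
    refine mul_le_mul_of_nonneg_left ((cv_bd hN (hA j) hf).trans ?_) (abs_nonneg _)
    have := hQ j
    gcongr
  calc |∑ j, (m j : ℝ) * (Real.sqrt (q j) * cv f (χ j))| ≤
      ∑ j, |(m j : ℝ) * (Real.sqrt (q j) * cv f (χ j))| := Finset.abs_sum_le_sum_abs _ _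
    _ ≤ ∑ j, |(m j : ℝ)| * (8 * (N : ℝ) ^ 2 * Q ^ 3) := Finset.sum_le_sum fun j _ => h1 j
    _ = (∑ j, |(m j : ℝ)|) * (8 * (N : ℝ) ^ 2 * Q ^ 3) := by rw [Finset.sum_mul]
    _ ≤ Q * (8 * (N : ℝ) ^ 2 * Q ^ 3) := by gcongr
    _ ≤ Q * ((N : ℝ) ^ 2 * (N : ℝ) ^ 2 * Q ^ 3) := by
        have : (8 : ℝ) ≤ (N : ℝ) ^ 2 := by nlinarith
        gcongr
    _ = ((N : ℝ) * Q) ^ (4 : ℕ) := by ring
    _ = ((N : ℝ) * Q) ^ (4 : ℝ) := by
        rw [show (4 : ℝ) = ((4 : ℕ) : ℝ) by norm_num, Real.rpow_natCast]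

/-- linear forms: the product -/
theorem lf_prod {N k : ℕ} (hN : N.Prime) (h3 : 3 ≤ N)
    (q : Fin k → ℕ) (χ : ∀ j, DirichletCharacter ℂ (q j)) (m : Fin k → ℤ)
    (hA : ∀ j, Adm N (q j) (χ j)) (s : ℂ) (hs : ∀ j, χ j (-1) = s) :
    (N : ℝ) ^ (-(668 * ((HH N).ncard : ℝ))) ≤
      ∏ᶠ f ∈ {f ∈ HH N | lf f q χ m ≠ 0}, |lf f q χ m| := by
  have : NeZero N := ⟨hN.ne_zero⟩
  obtain ⟨B, hB, hH, -⟩ := one hN h3
  obtain ⟨V, b, hV, h⟩ := lf_form (fun f hf => hB.newf f hf) q χ m hA s hs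
  rw [← prod_eq hH (fun f => lf f q χ m), hH, Set.ncard_coe_finset]
  exact prodB hN h3 hB hV b (fun f => lf f q χ m) fun f => by rw [h f]

/-- linear forms: the small values -/
theorem lf_count {N k : ℕ} (hN : N.Prime) (h3 : 3 ≤ N)
    (q : Fin k → ℕ) (χ : ∀ j, DirichletCharacter ℂ (q j)) (m : Fin k → ℤ)
    (hA : ∀ j, Adm N (q j) (χ j)) (s : ℂ) (hs : ∀ j, χ j (-1) = s) (Q A : ℝ) (hA0 : 0 < A)
    (hQ1 : 1 ≤ Q) (hQ : ∀ j, (q j : ℝ) ≤ Q) (hm : ∑ j, |(m j : ℝ)| ≤ Q) :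
    (({f ∈ HH N | lf f q χ m ≠ 0 ∧ |lf f q χ m| < ((N : ℝ) * Q) ^ (-A)}.ncard : ℕ) : ℝ) ≤
      672 / A * ((HH N).ncard : ℝ) := by
  have : NeZero N := ⟨hN.ne_zero⟩
  have hN3 : (3 : ℝ) ≤ N := by exact_mod_cast h3
  obtain ⟨B, hB, hH, -⟩ := one hN h3
  obtain ⟨V, b, hV, h⟩ := lf_form (fun f hf => hB.newf f hf) q χ m hA s hs
  have hp := prodB hN h3 hB hV b (fun f => lf f q χ m) fun f => by rw [h f]
  refine countB hH (fun f => lf f q χ m) ((N : ℝ) * Q) A (by nlinarith) hA0 (fun f hf => ?_) ?_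
  · obtain ⟨ε, hε⟩ := hB.newf f hf
    exact lf_bd hN h3 hε q χ m hA Q hQ1 hQ hm
  · refine le_trans ?_ hp
    refine Real.rpow_le_rpow_of_nonpos (by linarith) (by nlinarith) ?_
    have : (0 : ℝ) ≤ B.card := Nat.cast_nonneg _
    linarith

/-- one character: the product over the newforms -/
theorem cv_prodB {N q : ℕ} [NeZero N] (hN : N.Prime) (h3 : 3 ≤ N) {B : Finset (S2 N)}
    (hB : W388.LV.IsNewBasis N 2 B) (χ : DirichletCharacter ℂ q) (hA : Adm N q χ) :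
    ((N : ℝ) * q) ^ (-((668 : ℝ) * (B.card : ℝ))) ≤ ∏ f ∈ B with |cv f χ| ≠ 0, |cv f χ| := by
  classical
  have hq0 : (0 : ℝ) < q := Nat.cast_pos.2 (Nat.pos_of_ne_zero hA.1)
  have hq1 : (1 : ℝ) ≤ q := by exact_mod_cast Nat.pos_of_ne_zero hA.1
  have hN0 : (0 : ℝ) < N := Nat.cast_pos.2 hN.pos
  have hs : 0 < Real.sqrt q := Real.sqrt_pos.2 hq0
  obtain ⟨V, b, hV, h⟩ := lf_form (k := 1) (fun f hf => hB.newf f hf) (fun _ => q) (fun _ => χ)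
    (fun _ => 1) (fun _ => hA) _ (fun _ => rfl)
  have h' : ∀ f : B, |pt b (V f)| = |Real.sqrt q * cv f.1 χ| := by
    intro f
    rw [h f]
    unfold lf
    rw [Fin.sum_univ_one]
    simp
  have hp := prodB hN h3 hB hV b (fun f => Real.sqrt q * cv f χ) h'
  have hfil : (B.filter fun f => |Real.sqrt q * cv f χ| ≠ 0) = B.filter fun f => |cv f χ| ≠ 0 := by
    refine Finset.filter_congr fun f _ => ?_
    rw [abs_ne_zero, abs_ne_zero, mul_ne_zero_iff]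
    exact ⟨fun h => h.2, fun h => ⟨hs.ne', h⟩⟩
  rw [hfil] at hp
  have h1 : ∏ f ∈ B with |cv f χ| ≠ 0, |Real.sqrt q * cv f χ| =
      (Real.sqrt q) ^ (B.filter fun f => |cv f χ| ≠ 0).card *
        ∏ f ∈ B with |cv f χ| ≠ 0, |cv f χ| := by
    rw [← Finset.prod_const, ← Finset.prod_mul_distrib]
    refine Finset.prod_congr rfl fun f _ => ?_
    rw [abs_mul, abs_of_pos hs]
  rw [h1] at hp
  have hP0 : 0 ≤ ∏ f ∈ B with |cv f χ| ≠ 0, |cv f χ| := Finset.prod_nonneg fun f _ => abs_nonneg _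
  have h2 : (Real.sqrt q) ^ (B.filter fun f => |cv f χ| ≠ 0).card ≤ (q : ℝ) ^ ((668 : ℝ) * (B.card : ℝ)) := by
    have e1 : Real.sqrt q ≤ q := by
      rw [Real.sqrt_le_left (by linarith)]
      nlinarith
    have e2 : (B.filter fun f => |cv f χ| ≠ 0).card ≤ B.card := Finset.card_filter_le _ _
    calc (Real.sqrt q) ^ (B.filter fun f => |cv f χ| ≠ 0).card ≤
        (q : ℝ) ^ (B.filter fun f => |cv f χ| ≠ 0).card := by gcongr
      _ ≤ (q : ℝ) ^ B.card := pow_le_pow_right₀ hq1 e2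
      _ = (q : ℝ) ^ ((B.card : ℝ)) := (Real.rpow_natCast _ _).symm
      _ ≤ (q : ℝ) ^ ((668 : ℝ) * (B.card : ℝ)) := by
        refine Real.rpow_le_rpow_of_exponent_le hq1 ?_
        have : (0 : ℝ) ≤ B.card := Nat.cast_nonneg _
        linarith
  have h4 : (N : ℝ) ^ (-((668 : ℝ) * (B.card : ℝ))) ≤ (q : ℝ) ^ ((668 : ℝ) * (B.card : ℝ)) *
      ∏ f ∈ B with |cv f χ| ≠ 0, |cv f χ| := hp.trans (mul_le_mul_of_nonneg_right h2 hP0)
  rw [Real.mul_rpow hN0.le hq0.le, Real.rpow_neg hq0.le]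
  have h5 : (0 : ℝ) < (q : ℝ) ^ ((668 : ℝ) * (B.card : ℝ)) := Real.rpow_pos_of_pos hq0 _
  rw [← div_eq_mul_inv, div_le_iff₀ h5]
  linarith

theorem cv_prod {N q : ℕ} (hN : N.Prime) (h3 : 3 ≤ N) (χ : DirichletCharacter ℂ q)
    (hA : Adm N q χ) : ((N : ℝ) * q) ^ (-(668 * ((HH N).ncard : ℝ))) ≤
      ∏ᶠ f ∈ {f ∈ HH N | cv f χ ≠ 0}, |cv f χ| := by
  have : NeZero N := ⟨hN.ne_zero⟩
  obtain ⟨B, hB, hH, -⟩ := one hN h3
  rw [← prod_eq hH (fun f => cv f χ), hH, Set.ncard_coe_finset]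
  exact cv_prodB hN h3 hB χ hA

theorem cv_count {N q : ℕ} (hN : N.Prime) (h3 : 3 ≤ N) (χ : DirichletCharacter ℂ q)
    (hA : Adm N q χ) {A : ℝ} (hA0 : 0 < A) :
    (({f ∈ HH N | cv f χ ≠ 0 ∧ |cv f χ| < ((N : ℝ) * q) ^ (-A)}.ncard : ℕ) : ℝ) ≤
      672 / A * ((HH N).ncard : ℝ) := by
  have : NeZero N := ⟨hN.ne_zero⟩
  have hN3 : (3 : ℝ) ≤ N := by exact_mod_cast h3
  have hq1 : (1 : ℝ) ≤ q := by exact_mod_cast Nat.pos_of_ne_zero hA.1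
  obtain ⟨B, hB, hH, -⟩ := one hN h3
  refine countB hH (fun f => cv f χ) ((N : ℝ) * q) A (by nlinarith) hA0 (fun f hf => ?_)
    (cv_prodB hN h3 hB χ hA)
  obtain ⟨ε, hε⟩ := hB.newf f hf
  have h1 := cv_bd hN hA hε
  have h2 : |cv f χ| ≤ |Real.sqrt q * cv f χ| := by
    rw [abs_mul, abs_of_nonneg (Real.sqrt_nonneg _)]
    have : 1 ≤ Real.sqrt q := by rw [Real.one_le_sqrt]; exact hq1
    nlinarith [abs_nonneg (cv f χ)]
  refine h2.trans (h1.trans ?_)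
  have e1 : (8 : ℝ) ≤ (N : ℝ) ^ 2 := by nlinarith
  calc 8 * (N : ℝ) ^ 2 * (q : ℝ) ^ 3 ≤ (N : ℝ) ^ 2 * (N : ℝ) ^ 2 * (q : ℝ) ^ 4 := by
        have : (q : ℝ) ^ 3 ≤ (q : ℝ) ^ 4 := pow_le_pow_right₀ hq1 (by norm_num)
        gcongr
    _ = ((N : ℝ) * q) ^ (4 : ℕ) := by ring
    _ = ((N : ℝ) * q) ^ (4 : ℝ) := by
        rw [show (4 : ℝ) = ((4 : ℕ) : ℝ) by norm_num, Real.rpow_natCast]

/-- several characters -/
theorem joint {N k : ℕ} (hN : N.Prime) (h3 : 650 ≤ N) (q : Fin k → ℕ)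
    (χ : ∀ j, DirichletCharacter ℂ (q j)) (hA : ∀ j, Adm N (q j) (χ j)) {Q A : ℝ} (hA0 : 0 < A)
    (hQ : ∀ j, (q j : ℝ) ≤ Q) :
    (({f ∈ H N 1 | (∀ j, cv f (χ j) ≠ 0) ∧ ∃ j, |cv f (χ j)| < ((N : ℝ) * Q) ^ (-A)}.ncard : ℕ) : ℝ) ≤
      k * (13440 / A) * ((H N 1).ncard : ℝ) := by
  classical
  have hN3 : (3 : ℝ) ≤ N := by exact_mod_cast (by omega : 3 ≤ N)
  have hfin : (HH N).Finite := fin hN (by omega)
  have h1 : {f ∈ H N 1 | (∀ j, cv f (χ j) ≠ 0) ∧ ∃ j, |cv f (χ j)| < ((N : ℝ) * Q) ^ (-A)} ⊆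
      ⋃ j ∈ (Finset.univ : Finset (Fin k)),
        {f ∈ HH N | cv f (χ j) ≠ 0 ∧ |cv f (χ j)| < ((N : ℝ) * (q j : ℝ)) ^ (-A)} := by
    rintro f ⟨h4, h5, j, h6⟩
    rw [Set.mem_iUnion₂]
    refine ⟨j, Finset.mem_univ _, Or.inl h4, h5 j, h6.trans_le ?_⟩
    have hq1 : (1 : ℝ) ≤ q j := by exact_mod_cast Nat.pos_of_ne_zero (hA j).1
    refine Real.rpow_le_rpow_of_nonpos (by nlinarith) ?_ (by linarith)
    exact mul_le_mul_of_nonneg_left (hQ j) (by linarith)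
  have hfin2 : ∀ j : Fin k, ({f ∈ HH N | cv f (χ j) ≠ 0 ∧
      |cv f (χ j)| < ((N : ℝ) * (q j : ℝ)) ^ (-A)} : Set (S2 N)).Finite := fun j =>
    hfin.subset fun f hf => hf.1
  have h2 : ({f ∈ H N 1 | (∀ j, cv f (χ j) ≠ 0) ∧
      ∃ j, |cv f (χ j)| < ((N : ℝ) * Q) ^ (-A)} : Set (S2 N)).ncard ≤
      ∑ j : Fin k, ({f ∈ HH N | cv f (χ j) ≠ 0 ∧
        |cv f (χ j)| < ((N : ℝ) * (q j : ℝ)) ^ (-A)} : Set (S2 N)).ncard := by
    refine (Set.ncard_le_ncard h1 ?_).trans ?_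
    · exact Set.Finite.biUnion (Finset.finite_toSet _) fun j _ => hfin2 j
    · exact Finset.set_ncard_biUnion_le _ _
  have h5 : ((HH N).ncard : ℝ) ≤ 20 * ((H N 1).ncard : ℝ) := by
    exact_mod_cast (even_many hN (by omega)).2 h3
  have h6 : (0 : ℝ) ≤ 672 / A := by positivity
  calc (({f ∈ H N 1 | (∀ j, cv f (χ j) ≠ 0) ∧
      ∃ j, |cv f (χ j)| < ((N : ℝ) * Q) ^ (-A)}.ncard : ℕ) : ℝ) ≤
      ((∑ j : Fin k, ({f ∈ HH N | cv f (χ j) ≠ 0 ∧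
        |cv f (χ j)| < ((N : ℝ) * (q j : ℝ)) ^ (-A)} : Set (S2 N)).ncard : ℕ) : ℝ) := by
        exact_mod_cast h2
    _ ≤ ∑ _j : Fin k, 672 / A * ((HH N).ncard : ℝ) := by
        push_cast
        exact Finset.sum_le_sum fun j _ => cv_count hN (by omega) (χ j) (hA j) hA0
    _ = k * (672 / A * ((HH N).ncard : ℝ)) := by simp
    _ ≤ k * (672 / A * (20 * ((H N 1).ncard : ℝ))) := by gcongr
    _ = k * (13440 / A) * ((H N 1).ncard : ℝ) := by ring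

/-- the additive twists are the boundary values -/
theorem av_eq {N : ℕ} [NeZero N] (f : S2 N) (r : ℚ) (hr : r.den.Coprime N) : av f r = bv f r := by
  unfold av bv
  rw [if_pos hr]
  rfl

theorem av_lim {N : ℕ} [NeZero N] {f : S2 N} {ε : ℝ} (hf : W388.IsNewf N 2 f ε) (r : ℚ)
    (hr : r.den.Coprime N) : Tendsto (fun y : ℝ => ∑' n : ℕ, (qExpansion 1 f).coeff n / n *
      Complex.exp (2 * Real.pi * Complex.I * n * ((r : ℂ) + (y : ℂ) * Complex.I))) (𝓝[>] 0)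
      (𝓝 (av f r)) := by
  rw [av_eq f r hr]
  exact bv_tendsto f (newf_fr hf) r hr

/-- additive twists -/
theorem add_all {N k : ℕ} (hN : N.Prime) (h3 : 3 ≤ N) (r : Fin k → ℚ) (m : Fin k → ℤ)
    (hr : ∀ j, (r j).den.Coprime N) (b : Bool) :
    ((N : ℝ) ^ (-(668 * ((HH N).ncard : ℝ))) ≤
      ∏ᶠ f ∈ {f ∈ HH N | pt b (∑ j, (m j : ℂ) * av f (r j)) ≠ 0},
        |pt b (∑ j, (m j : ℂ) * av f (r j))|) ∧
    ∀ Q A : ℝ, 0 < A → 1 ≤ Q → (∀ j, ((r j).den : ℝ) ≤ Q) → ∑ j, |(m j : ℝ)| ≤ Q →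
      (({f ∈ HH N | pt b (∑ j, (m j : ℂ) * av f (r j)) ≠ 0 ∧
        |pt b (∑ j, (m j : ℂ) * av f (r j))| < ((N : ℝ) * Q) ^ (-A)}.ncard : ℕ) : ℝ) ≤
      672 / A * ((HH N).ncard : ℝ) := by
  have : NeZero N := ⟨hN.ne_zero⟩
  have hN3 : (3 : ℝ) ≤ N := by exact_mod_cast h3
  obtain ⟨B, hB, hH, -⟩ := one hN h3
  have hV := FF_sum B (Finset.univ : Finset (Fin k)) r m (fun j _ => hr j)
  have hg : ∀ f : S2 N, ∑ j, (m j : ℂ) * av f (r j) = ∑ j, (m j : ℂ) * bv f (r j) := fun f =>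
    Finset.sum_congr rfl fun j _ => by rw [av_eq f (r j) (hr j)]
  have hp := prodB hN h3 hB hV b (fun f => pt b (∑ j, (m j : ℂ) * av f (r j)))
    fun f => by rw [hg]
  constructor
  · rw [← prod_eq hH (fun f => pt b (∑ j, (m j : ℂ) * av f (r j))), hH, Set.ncard_coe_finset]
    exact hp
  · intro Q A hA0 hQ1 hQ hm
    refine countB hH (fun f => pt b (∑ j, (m j : ℂ) * av f (r j))) ((N : ℝ) * Q) A (by nlinarith)
      hA0 (fun f hf => ?_) ?_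
    · obtain ⟨ε, hε⟩ := hB.newf f hf
      rw [hg]
      refine (pt_le _ _).trans ?_
      have h1 : ∀ j, ‖(m j : ℂ) * bv f (r j)‖ ≤ |(m j : ℝ)| * (8 * (N : ℝ) ^ 2 * Q ^ 2) := by
        intro j
        obtain ⟨r', -, -, h⟩ := bv_star (N := N) (r j) (hr j)
        have h1 := (h f ε (newf_fr hε)).2 (coef N hN f ε hε) (by
          rcases hε.sign with h1 | h1 <;> rw [h1] <;> norm_num)
        rw [norm_mul, Complex.norm_intCast]
        refine mul_le_mul_of_nonneg_left (h1.trans ?_) (abs_nonneg _)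
        have := hQ j
        gcongr
      have e1 : (8 : ℝ) ≤ (N : ℝ) ^ 2 := by nlinarith
      calc ‖∑ j, (m j : ℂ) * bv f (r j)‖ ≤ ∑ j, ‖(m j : ℂ) * bv f (r j)‖ := norm_sum_le _ _
        _ ≤ ∑ j, |(m j : ℝ)| * (8 * (N : ℝ) ^ 2 * Q ^ 2) := Finset.sum_le_sum fun j _ => h1 j
        _ = (∑ j, |(m j : ℝ)|) * (8 * (N : ℝ) ^ 2 * Q ^ 2) := by rw [Finset.sum_mul]
        _ ≤ Q * ((N : ℝ) ^ 2 * (N : ℝ) ^ 2 * Q ^ 2) := by gcongr
        _ ≤ Q * Q * ((N : ℝ) ^ 2 * (N : ℝ) ^ 2 * Q ^ 2) := by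
            refine mul_le_mul_of_nonneg_right ?_ (by positivity)
            nlinarith
        _ = ((N : ℝ) * Q) ^ (4 : ℕ) := by ring
        _ = ((N : ℝ) * Q) ^ (4 : ℝ) := by
            rw [show (4 : ℝ) = ((4 : ℕ) : ℝ) by norm_num, Real.rpow_natCast]
    · refine le_trans ?_ hp
      refine Real.rpow_le_rpow_of_nonpos (by linarith) (by nlinarith) ?_
      have : (0 : ℝ) ≤ B.card := Nat.cast_nonneg _
      linarith

/-- the two lower limits for several fixed characters -/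
theorem limits {k : ℕ} (q : Fin k → ℕ) (χ : ∀ j, DirichletCharacter ℂ (q j))
    (hχ : ∀ j, q j ≠ 0 ∧ (χ j).IsPrimitive ∧ χ j ^ 2 = 1) (θ : ℝ) :
    θ < liminf (fun N : ℕ =>
        (({f ∈ H N 1 | ∀ j, cv f (χ j) ≠ 0}.ncard : ℕ) : ℝ) / ((H N 1).ncard : ℝ)) primes ↔
      ∃ A : ℝ, 0 < A ∧ θ < liminf (fun N : ℕ =>
        (({f ∈ H N 1 | ∀ j, (N : ℝ) ^ (-A) ≤ |cv f (χ j)|}.ncard : ℕ) : ℝ) /
          ((H N 1).ncard : ℝ)) primes := by
  classical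
  have hbot : primes.NeBot := by
    unfold primes
    rw [← frequently_mem_iff_neBot]
    exact Nat.frequently_atTop_iff_infinite.2 Nat.infinite_setOfPred_prime
  have hprime : ∀ᶠ N in primes, N.Prime :=
    (eventually_principal.2 fun _ h => h : ∀ᶠ N in 𝓟 {N : ℕ | N.Prime}, N.Prime).filter_mono
      inf_le_right
  set Q0 : ℕ := 650 + ∑ j, q j with hQ0
  have hlarge : ∀ᶠ N in primes, Q0 ≤ N :=
    (eventually_ge_atTop Q0).filter_mono inf_le_left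
  have hqle : ∀ N : ℕ, Q0 ≤ N → ∀ j, q j < N := by
    intro N hN j
    have : q j ≤ ∑ j, q j := Finset.single_le_sum (f := q) (fun _ _ => Nat.zero_le _) (Finset.mem_univ j)
    omega
  have hAdm : ∀ N : ℕ, N.Prime → Q0 ≤ N → ∀ j, Adm N (q j) (χ j) := by
    intro N hN hQ j
    refine ⟨(hχ j).1, ?_, (hχ j).2.1, (hχ j).2.2⟩
    refine ((Nat.Prime.coprime_iff_not_dvd hN).2 fun h => ?_).symm
    have := Nat.le_of_dvd (Nat.pos_of_ne_zero (hχ j).1) h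
    have := hqle N hQ j
    omega
  refine Fin.liminf_iff (l := primes) (fun N => ((H N 1).ncard : ℝ))
    (fun N => (({f ∈ H N 1 | ∀ j, cv f (χ j) ≠ 0}.ncard : ℕ) : ℝ))
    (fun A N => (({f ∈ H N 1 | ∀ j, (N : ℝ) ^ (-A) ≤ |cv f (χ j)|}.ncard : ℕ) : ℝ))
    (k * 26880) (by positivity) ?_ ?_ ?_ ?_ θ
  · filter_upwards [hprime, hlarge] with N hN h100
    have := (even_many hN (by omega)).1
    have : 0 < (H N 1).ncard := by omega
    exact_mod_cast this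
  · filter_upwards [hprime, hlarge] with N hN h100
    refine ⟨Nat.cast_nonneg _, ?_⟩
    have hfin : (H N 1).Finite := (fin hN (by omega)).subset fun f hf => Or.inl hf
    have hs : {f ∈ H N 1 | ∀ j, cv f (χ j) ≠ 0} ⊆ H N 1 := fun f hf => hf.1
    exact Nat.cast_le.2 (Set.ncard_le_ncard hs hfin)
  · intro A
    filter_upwards [hprime, hlarge] with N hN h100
    refine ⟨Nat.cast_nonneg _, ?_⟩
    have hfin : (H N 1).Finite := (fin hN (by omega)).subset fun f hf => Or.inl hf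
    have hN0 : (0 : ℝ) < N := Nat.cast_pos.2 hN.pos
    have hs : {f ∈ H N 1 | ∀ j, (N : ℝ) ^ (-A) ≤ |cv f (χ j)|} ⊆
        {f ∈ H N 1 | ∀ j, cv f (χ j) ≠ 0} := by
      refine fun f hf => ⟨hf.1, fun j h0 => ?_⟩
      have h1 := hf.2 j
      rw [h0, abs_zero] at h1
      exact absurd (Real.rpow_pos_of_pos hN0 (-A)) (not_lt.2 h1)
    exact Nat.cast_le.2 (Set.ncard_le_ncard hs (hfin.subset fun f hf => hf.1))
  · intro A hA
    filter_upwards [hprime, hlarge] with N hN h100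
    have hfin : (H N 1).Finite := (fin hN (by omega)).subset fun f hf => Or.inl hf
    have hN1 : (1 : ℝ) ≤ N := by exact_mod_cast hN.one_le
    have h1 := joint hN (by omega) q χ (hAdm N hN h100) (Q := N) (A := A / 2) (by positivity)
      (fun j => by exact_mod_cast (hqle N h100 j).le)
    have h2 : {f ∈ H N 1 | ∀ j, cv f (χ j) ≠ 0} ⊆ {f ∈ H N 1 | ∀ j, (N : ℝ) ^ (-A) ≤ |cv f (χ j)|} ∪
        {f ∈ H N 1 | (∀ j, cv f (χ j) ≠ 0) ∧ ∃ j, |cv f (χ j)| < ((N : ℝ) * N) ^ (-(A / 2))} := by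
      intro f hf
      by_cases h : ∀ j, (N : ℝ) ^ (-A) ≤ |cv f (χ j)|
      · exact Or.inl ⟨hf.1, h⟩
      · push Not at h
        obtain ⟨j, hj⟩ := h
        refine Or.inr ⟨hf.1, hf.2, j, hj.trans_le (le_of_eq ?_)⟩
        rw [← sq, ← Real.rpow_natCast, ← Real.rpow_mul (by linarith)]
        congr 1
        push_cast
        ring
    have h3 : ({f ∈ H N 1 | ∀ j, cv f (χ j) ≠ 0} : Set (S2 N)).ncard ≤
        ({f ∈ H N 1 | ∀ j, (N : ℝ) ^ (-A) ≤ |cv f (χ j)|} : Set (S2 N)).ncard +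
        ({f ∈ H N 1 | (∀ j, cv f (χ j) ≠ 0) ∧
          ∃ j, |cv f (χ j)| < ((N : ℝ) * N) ^ (-(A / 2))} : Set (S2 N)).ncard := by
      refine (Set.ncard_le_ncard h2 ?_).trans (Set.ncard_union_le _ _)
      exact (hfin.subset fun f hf => hf.1).union (hfin.subset fun f hf => hf.1)
    have h4 : (({f ∈ H N 1 | ∀ j, cv f (χ j) ≠ 0}.ncard : ℕ) : ℝ) ≤
        (({f ∈ H N 1 | ∀ j, (N : ℝ) ^ (-A) ≤ |cv f (χ j)|}.ncard : ℕ) : ℝ) +
        (({f ∈ H N 1 | (∀ j, cv f (χ j) ≠ 0) ∧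
          ∃ j, |cv f (χ j)| < ((N : ℝ) * N) ^ (-(A / 2))}.ncard : ℕ) : ℝ) := by
      exact_mod_cast h3
    have h5 : (k : ℝ) * (13440 / (A / 2)) * ((H N 1).ncard : ℝ) =
        k * 26880 / A * ((H N 1).ncard : ℝ) := by
      field_simp
      ring
    rw [h5] at h1
    linarith

/-- **Integral linear forms in the central values of quadratic twists.** -/
theorem result :
    (∀ (N q : ℕ) (χ : DirichletCharacter ℂ q), N.Prime → Adm N q χ →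
      ∀ f ∈ HH N, ∃ L : ℂ → ℂ, IsLfun f χ L ∧ L (1 / 2) = (cv f χ : ℂ)) ∧
    (∀ N : ℕ, N.Prime → 3 ≤ N → (HH N).Finite ∧
      ∀ (k : ℕ) (q : Fin k → ℕ) (χ : ∀ j, DirichletCharacter ℂ (q j)) (m : Fin k → ℤ) (s : ℂ),
      (∀ j, Adm N (q j) (χ j) ∧ χ j (-1) = s) →
      (N : ℝ) ^ (-(668 * ((HH N).ncard : ℝ))) ≤
        ∏ᶠ f ∈ {f ∈ HH N | lf f q χ m ≠ 0}, |lf f q χ m| ∧
      ∀ Q A : ℝ, 0 < A → 1 ≤ Q → (∀ j, (q j : ℝ) ≤ Q) → ∑ j, |(m j : ℝ)| ≤ Q →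
        (({f ∈ HH N | lf f q χ m ≠ 0 ∧ |lf f q χ m| < ((N : ℝ) * Q) ^ (-A)}.ncard : ℕ) : ℝ) ≤
          672 / A * ((HH N).ncard : ℝ)) ∧
    (∀ (N q : ℕ) (χ : DirichletCharacter ℂ q), N.Prime → 3 ≤ N → Adm N q χ →
      ((N : ℝ) * q) ^ (-(668 * ((HH N).ncard : ℝ))) ≤
        ∏ᶠ f ∈ {f ∈ HH N | cv f χ ≠ 0}, |cv f χ| ∧
      ∀ A : ℝ, 0 < A →
        (({f ∈ HH N | cv f χ ≠ 0 ∧ |cv f χ| < ((N : ℝ) * q) ^ (-A)}.ncard : ℕ) : ℝ) ≤
          672 / A * ((HH N).ncard : ℝ)) ∧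
    (∀ (N k : ℕ) (q : Fin k → ℕ) (χ : ∀ j, DirichletCharacter ℂ (q j)) (Q A : ℝ), N.Prime →
      650 ≤ N → (∀ j, Adm N (q j) (χ j) ∧ (q j : ℝ) ≤ Q) → 0 < A →
      (({f ∈ H N 1 | (∀ j, cv f (χ j) ≠ 0) ∧
        ∃ j, |cv f (χ j)| < ((N : ℝ) * Q) ^ (-A)}.ncard : ℕ) : ℝ) ≤
          k * (13440 / A) * ((H N 1).ncard : ℝ)) ∧
    (∀ (k : ℕ) (q : Fin k → ℕ) (χ : ∀ j, DirichletCharacter ℂ (q j)),
      (∀ j, q j ≠ 0 ∧ (χ j).IsPrimitive ∧ χ j ^ 2 = 1) → ∀ θ : ℝ,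
      (θ < liminf (fun N : ℕ =>
          (({f ∈ H N 1 | ∀ j, cv f (χ j) ≠ 0}.ncard : ℕ) : ℝ) / ((H N 1).ncard : ℝ)) primes ↔
        ∃ A : ℝ, 0 < A ∧ θ < liminf (fun N : ℕ =>
          (({f ∈ H N 1 | ∀ j, (N : ℝ) ^ (-A) ≤ |cv f (χ j)|}.ncard : ℕ) : ℝ) /
            ((H N 1).ncard : ℝ)) primes)) ∧
    (∀ N : ℕ, N.Prime → 3 ≤ N →
      (∀ r : ℚ, r.den.Coprime N → ∀ f ∈ HH N, Tendsto (fun y : ℝ =>
        ∑' n : ℕ, (qExpansion 1 f).coeff n / n *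
          Complex.exp (2 * Real.pi * Complex.I * n * ((r : ℂ) + (y : ℂ) * Complex.I))) (𝓝[>] 0)
        (𝓝 (av f r))) ∧
      ∀ (k : ℕ) (r : Fin k → ℚ) (m : Fin k → ℤ), (∀ j, (r j).den.Coprime N) →
        ((N : ℝ) ^ (-(668 * ((HH N).ncard : ℝ))) ≤
          ∏ᶠ f ∈ {f ∈ HH N | (∑ j, (m j : ℂ) * av f (r j)).re ≠ 0},
            |(∑ j, (m j : ℂ) * av f (r j)).re|) ∧
        ((N : ℝ) ^ (-(668 * ((HH N).ncard : ℝ))) ≤
          ∏ᶠ f ∈ {f ∈ HH N | (∑ j, (m j : ℂ) * av f (r j)).im ≠ 0},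
            |(∑ j, (m j : ℂ) * av f (r j)).im|) ∧
        ∀ Q A : ℝ, 0 < A → 1 ≤ Q → (∀ j, ((r j).den : ℝ) ≤ Q) → ∑ j, |(m j : ℝ)| ≤ Q →
          (({f ∈ HH N | (∑ j, (m j : ℂ) * av f (r j)).re ≠ 0 ∧
            |(∑ j, (m j : ℂ) * av f (r j)).re| < ((N : ℝ) * Q) ^ (-A)}.ncard : ℕ) : ℝ) ≤
              672 / A * ((HH N).ncard : ℝ) ∧
          (({f ∈ HH N | (∑ j, (m j : ℂ) * av f (r j)).im ≠ 0 ∧
            |(∑ j, (m j : ℂ) * av f (r j)).im| < ((N : ℝ) * Q) ^ (-A)}.ncard : ℕ) : ℝ) ≤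
              672 / A * ((HH N).ncard : ℝ)) := by
  refine ⟨fun N q χ hN hA f hf => ?_, fun N hN h3 => ⟨fin hN h3, fun k q χ m s h =>
    ⟨lf_prod hN h3 q χ m (fun j => (h j).1) s (fun j => (h j).2), fun Q A hA0 hQ1 hQ hm =>
      lf_count hN h3 q χ m (fun j => (h j).1) s (fun j => (h j).2) Q A hA0 hQ1 hQ hm⟩⟩,
    fun N q χ hN h3 hA => ⟨cv_prod hN h3 χ hA, fun A hA0 => cv_count hN h3 χ hA hA0⟩,
    fun N k q χ Q A hN h3 h hA0 => joint hN h3 q χ (fun j => (h j).1) hA0 (fun j => (h j).2),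
    fun k q χ h θ => limits q χ h θ, fun N hN h3 => ⟨fun r hr f hf => ?_, fun k r m hr => ?_⟩⟩
  · have : NeZero N := ⟨hN.ne_zero⟩
    have : NeZero q := ⟨hA.1⟩
    obtain ⟨e, -, h⟩ := cvT hA
    rw [HH_eq] at hf
    obtain ⟨ε, hε⟩ := hf
    exact (h f ε hε).1
  · have : NeZero N := ⟨hN.ne_zero⟩
    rw [HH_eq] at hf
    obtain ⟨ε, hε⟩ := hf
    exact av_lim hε r hr
  · have h1 := add_all hN h3 r m hr true
    have h2 := add_all hN h3 r m hr false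
    simp only [pt, if_true] at h1
    simp only [pt, Bool.false_eq_true, if_false] at h2
    exact ⟨h1.1, h2.1, fun Q A hA0 hQ1 hQ hm => ⟨h1.2 Q A hA0 hQ1 hQ hm, h2.2 Q A hA0 hQ1 hQ hm⟩⟩

end Pool.Agent.Results.MP_cc4f83_nt.LinearFormsOfTwists
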